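import Pool.Agent.H102.VS.Main

/-! # The colourful homogeneous selection theorem with volume for `d + 1` colour classes

The answer to Q1 is yes, for every `d ≥ 1`, for classes of arbitrary (also different) sizes and with
repeated members allowed.  Volume is Lebesgue measure on `ℝ^d = (Fin d → ℝ)`.

Outline of the proof.
* Every convex set `K` of volume one contains `d + 1` points spanning a simplex with
  `|det| ≥ 4 ^ (-d)` (`exists_simplex`).
* For an affine map `T = (L, b)` let `q_K` be the sum of `1 + |T p|²` over the `d + 1` points of
  `K`.  The function `det(L)² / ∏ q_K ^ w_K`, where `w_K` is one over the size of the class of `K`,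
  attains its maximum (after homogenisation it is a function on a sphere), and at the maximum the
  vectors `(T p, 1)`, normalised and suitably weighted, are in isotropic position in `ℝ^(d+1)`
  jointly for the `d + 1` classes (`isotropic`).
* So the `d + 1` second moment matrices `M_i` of the classes have trace one and sum `1`.  By Rado's
  theorem on independent transversals and compactness the mixed discriminant of such a tuple is
  bounded below by a positive constant (`rado`, `exists_mdisc_lb`); it is the expected value of
  `det²` for random vectors from the classes.
* By compactness of the set of tuples of unit vectors with determinant at least `η`, a positive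
  proportion of all tuples lies in one box of small sets, such that all the cones spanned by vectors
  of these sets contain a common ball in the hyperplane `ℝ^d × {1}` (`exists_cover`, `select`).
* The isotropy also bounds `|det L|` (some `K` has `q_K ≤ (d+1)²`), so the preimage of the ball
  under `T` has volume bounded below.
-/

namespace Pool.Agent.Results.MP_9e4c5e_co.ColorfulSelection

open MeasureTheory

/-- **Colourful homogeneous selection with volume for `d + 1` colour classes.** -/
theorem result : ∀ d : ℕ, 1 ≤ d → ∃ c v : ℝ, 0 < c ∧ 0 < v ∧
    ∀ m : Fin (d + 1) → ℕ, (∀ i, 0 < m i) →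
    ∀ F : (i : Fin (d + 1)) → Fin (m i) → Set (Fin d → ℝ),
      (∀ i k, Convex ℝ (F i k) ∧ volume (F i k) = 1) →
      ∃ (G : (i : Fin (d + 1)) → Finset (Fin (m i))) (E : Set (Fin d → ℝ)),
        (∀ i, c * (m i : ℝ) ≤ ((G i).card : ℝ)) ∧
        MeasurableSet E ∧ ENNReal.ofReal v ≤ volume E ∧
        ∀ k : (i : Fin (d + 1)) → Fin (m i), (∀ i, k i ∈ G i) →
          E ⊆ convexHull ℝ (⋃ i, F i (k i)) := by
  intro d _
  obtain ⟨c, hc, v, hv, h⟩ := Pool.Agent.H102.VS.main d
  exact ⟨c, v, hc, hv, h⟩

end Pool.Agent.Results.MP_9e4c5e_co.ColorfulSelection
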